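import Pool.Agent.Helper82.Min.Defs
import Pool.Agent.Helper82.Defs

/-!
The definitions of `Min/Defs.lean` agree with those used in the proofs.
-/

open MeasureTheory MeasureTheory.Measure Set Filter Topology
open scoped ENNReal Gradient

namespace Pool.Agent.Helper82.Min

lemma coshDist_eq (p q : H3) : coshDist p.1 q.1 = Helper82.coshDist p q := rfl

lemma le_HIsom_iff (Γ : Grp) : Γ ≤ HIsom ↔ ∀ γ ∈ Γ, IsIsom γ := Iff.rfl

lemma isDiscrete_iff (Γ : Grp) : IsDiscrete Γ ↔ Helper82.IsDiscrete Γ := Iff.rfl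

lemma isTorsionFree_iff (Γ : Grp) : IsTorsionFree Γ ↔ Helper82.IsTorsionFree Γ := Iff.rfl

lemma hasRankOneCusp_iff (Γ : Grp) : HasRankOneCusp Γ ↔ Helper82.HasRankOneCusp Γ := Iff.rfl

lemma lift_eq (Γ : Grp) (S : Set (Mfd Γ)) : lift Γ S = Subtype.val '' (Helper82.lift Γ S) := by
  ext p
  constructor
  · rintro ⟨h, hp⟩
    exact ⟨⟨p, h⟩, hp, rfl⟩
  · rintro ⟨q, hq, rfl⟩
    exact ⟨q.2, hq⟩

lemma mem_lift_iff (Γ : Grp) (S : Set (Mfd Γ)) (q : H3) :
    q.1 ∈ lift Γ S ↔ q ∈ Helper82.lift Γ S := by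
  rw [lift_eq]
  exact Subtype.val_injective.mem_set_image

lemma dv_eq (X : E3 → E3) (q : E3) : dv X q = Helper82.dv X q := by
  unfold dv Helper82.dv
  rw [LinearMap.trace_eq_matrix_trace ℝ (EuclideanSpace.basisFun (Fin 3) ℝ).toBasis,
    Matrix.trace]
  refine Finset.sum_congr rfl fun i _ => ?_
  rw [Matrix.diag_apply, LinearMap.toMatrix_apply]
  simp

lemma hdiv_eq (X : E3 → E3) (q : E3) : hdiv X q = Helper82.hdiv X q := by
  unfold hdiv Helper82.hdiv
  rw [dv_eq]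

lemma meanCurvature_eq (F : E3 → ℝ) (q : E3) :
    meanCurvature F q = Helper82.meanCurvature F q := hdiv_eq _ q

lemma isMinimalSurface_iff (Γ : Grp) (S : Set (Mfd Γ)) :
    IsMinimalSurface Γ S ↔ Helper82.IsMinimalSurface Γ S := by
  constructor
  · rintro ⟨h1, h2, h3⟩
    refine ⟨h1, h2, fun p hp => ?_⟩
    obtain ⟨W, F, hpW, hW, hF, hq⟩ := h3 p.1 ((mem_lift_iff Γ S p).2 hp)
    refine ⟨W, F, hW, hpW, hF, fun q hqW => (hq q hqW).2.1, fun q hqW => ?_, fun q hqW hq0 => ?_⟩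
    · rw [← mem_lift_iff]
      exact (hq q.1 hqW).2.2.1
    · rw [← meanCurvature_eq]
      exact (hq q.1 hqW).2.2.2 ((hq q.1 hqW).2.2.1.2 hq0)
  · rintro ⟨h1, h2, h3⟩
    refine ⟨h1, h2, fun p hp => ?_⟩
    obtain ⟨hpU, hpS⟩ := hp
    obtain ⟨W, F, hW, hpW, hF, hg, hS, hm⟩ := h3 ⟨p, hpU⟩ hpS
    have hU : IsOpen {q : E3 | Up q} := by
      have hc : Continuous fun q : E3 => q 2 := by fun_prop
      exact isOpen_lt continuous_const hc
    refine ⟨W ∩ {q : E3 | Up q}, F, ⟨hpW, hpU⟩, hW.inter hU, hF.mono inter_subset_left,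
      fun q hq => ⟨hq.2, hg q hq.1, ?_, fun hqS => ?_⟩⟩
    · have := hS ⟨q, hq.2⟩ hq.1
      rw [← mem_lift_iff] at this
      exact this
    · rw [meanCurvature_eq]
      have h4 := hS ⟨q, hq.2⟩ hq.1
      rw [← mem_lift_iff] at h4
      exact hm ⟨q, hq.2⟩ hq.1 (h4.1 hqS)

lemma isOpen_Up : IsOpen {q : E3 | Up q} := by
  have hc : Continuous fun q : E3 => q 2 := by fun_prop
  exact isOpen_lt continuous_const hc

lemma harea_eq {A : Set H3} (hA : MeasurableSet A) :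
    harea (Subtype.val '' A) = Helper82.harea A := by
  have hemb : MeasurableEmbedding (Subtype.val : H3 → E3) :=
    MeasurableEmbedding.subtype_coe isOpen_Up.measurableSet
  unfold harea Helper82.harea
  rw [withDensity_apply _ hA]
  have h1 : ∫⁻ q in A, ENNReal.ofReal (((q : E3) 2 ^ 2)⁻¹)
      ∂(Measure.comap Subtype.val (μHE[2] : Measure E3)) =
      ∫⁻ p in Subtype.val '' A, ENNReal.ofReal ((p 2 ^ 2)⁻¹) ∂(μHE[2] : Measure E3) := by
    rw [hemb.restrict_comap]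
    have h2 := hemb.lintegral_map (μ := Measure.comap Subtype.val
      ((μHE[2] : Measure E3).restrict (Subtype.val '' A)))
      (fun p : E3 => ENNReal.ofReal ((p 2 ^ 2)⁻¹))
    rw [← h2, hemb.map_comap, Measure.restrict_restrict hemb.measurableSet_range]
    congr 2
    refine inter_eq_right.2 ?_
    rintro _ ⟨q, _, rfl⟩
    exact ⟨q, rfl⟩
  exact h1.symm

lemma area_eq (Γ : Grp) {S : Set (Mfd Γ)} (hS : IsClosed S) : area Γ S = Helper82.area Γ S := by
  have hl : MeasurableSet (Helper82.lift Γ S) :=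
    (hS.preimage continuous_quotient_mk').measurableSet
  have hemb : MeasurableEmbedding (Subtype.val : H3 → E3) :=
    MeasurableEmbedding.subtype_coe isOpen_Up.measurableSet
  unfold area Helper82.area
  refine le_antisymm ?_ ?_
  · refine le_iInf fun D => le_iInf fun hD => le_iInf fun hc => ?_
    refine (iInf_le _ (Subtype.val '' D)).trans ((iInf_le _ (hemb.measurableSet_image.2 hD)).trans
      ((iInf_le _ (fun q => ?_)).trans (le_of_eq ?_)))
    · obtain ⟨γ, hγ, hq⟩ := hc q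
      exact ⟨γ, hγ, ⟨_, hq, rfl⟩⟩
    · rw [lift_eq, ← image_inter Subtype.val_injective, harea_eq (hD.inter hl)]
  · refine le_iInf fun D => le_iInf fun hD => le_iInf fun hc => ?_
    refine (iInf_le _ (Subtype.val ⁻¹' D)).trans ((iInf_le _ (measurable_subtype_coe hD)).trans
      ((iInf_le _ (fun q => ?_)).trans (le_of_eq ?_)))
    · obtain ⟨γ, hγ, hq⟩ := hc q
      exact ⟨γ, hγ, hq⟩
    · rw [← harea_eq ((measurable_subtype_coe hD).inter hl), lift_eq]
      congr 1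
      ext p
      constructor
      · rintro ⟨q, ⟨h1, h2⟩, rfl⟩
        exact ⟨h1, ⟨q, h2, rfl⟩⟩
      · rintro ⟨h1, ⟨q, h2, rfl⟩⟩
        exact ⟨q, ⟨h1, h2⟩, rfl⟩

end Pool.Agent.Helper82.Min
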