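import Mathlib

/-!
# Definitions: hyperbolic 3-manifolds, rank-one cusps, minimal surfaces and their area
-/

open MeasureTheory MeasureTheory.Measure
open scoped ENNReal Gradient

namespace Pool.Agent.Helper82.Min

/-- Euclidean 3-space. -/
abbrev E3 : Type := EuclideanSpace ℝ (Fin 3)

/-- The third coordinate `t` of `p = (x, y, t)`. -/
abbrev ht (p : E3) : ℝ := p 2

/-- The upper half-space `t > 0`. -/
abbrev Up (p : E3) : Prop := 0 < ht p

/-- Hyperbolic 3-space: the upper half-space with the metric `(dx² + dy² + dt²) / t²`. -/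
abbrev H3 : Type := Subtype Up

/-- A group of bijections of hyperbolic space. -/
abbrev Grp : Type := Subgroup (Equiv.Perm H3)

/-- The hyperbolic cosine of the hyperbolic distance of two points of upper half-space. -/
noncomputable def coshDist (p q : E3) : ℝ := 1 + dist p q ^ 2 / (2 * ht p * ht q)

/-- The hyperbolic cosine of the distance by which `γ` moves `p`. -/
noncomputable def displ (γ : Equiv.Perm H3) (p : H3) : ℝ := coshDist p.1 (γ p).1

/-- `γ` is an isometry of hyperbolic 3-space. -/
def IsIsom (γ : Equiv.Perm H3) : Prop :=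
  ∀ p q : H3, coshDist (γ p).1 (γ q).1 = coshDist p.1 q.1

/-- Discreteness: for every point `p`, every ball around `p` contains `γ p` for only finitely many
elements `γ` of the group. -/
def IsDiscrete (Γ : Grp) : Prop := ∀ (p : H3) (r : ℝ), {γ | γ ∈ Γ ∧ displ γ p ≤ r}.Finite

/-- A group without elements of finite order other than the identity. -/
def IsTorsionFree (Γ : Grp) : Prop := ∀ γ ∈ Γ, ∀ n : ℕ, 0 < n → γ ^ n = 1 → γ = 1

/-- A parabolic isometry: it has no fixed point, and its infimum displacement is zero. -/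
def IsParabolic (γ : Equiv.Perm H3) : Prop :=
  (∀ p, γ p ≠ p) ∧ ∀ ε > 0, ∃ p, displ γ p < 1 + ε

/-- A parabolic group: nontrivial, and all its elements other than the identity are parabolic. -/
def IsParabolicGroup (P : Grp) : Prop := P ≠ ⊥ ∧ ∀ γ ∈ P, γ ≠ 1 → IsParabolic γ

/-- `Γ` has a rank-one cusp: it has a maximal parabolic subgroup isomorphic to the integers. -/
def HasRankOneCusp (Γ : Grp) : Prop :=
  ∃ P ≤ Γ, IsParabolicGroup P ∧ (∀ Q ≤ Γ, IsParabolicGroup Q → P ≤ Q → Q = P) ∧
    Nonempty (P ≃* Multiplicative ℤ)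

/-- The quotient `M = H³/Γ`, with the quotient topology. -/
abbrev Mfd (Γ : Grp) : Type := Quotient (MulAction.orbitRel Γ H3)

/-- The preimage in upper half-space of a subset of `M = H³/Γ`. -/
def lift (Γ : Grp) (S : Set (Mfd Γ)) : Set E3 :=
  {p | ∃ h : Up p, (⟦⟨p, h⟩⟧ : Mfd Γ) ∈ S}

/-- Euclidean gradient. -/
noncomputable def grad (F : E3 → ℝ) (q : E3) : E3 := ∇ F q

/-- Euclidean divergence of a vector field: the trace of its derivative. -/
noncomputable def dv (X : E3 → E3) (q : E3) : ℝ :=
  ∑ i, fderiv ℝ X q (EuclideanSpace.single i 1) i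

/-- Hyperbolic divergence of a vector field: `t³ div (t⁻³ X)`, since the hyperbolic volume is
`t⁻³ dx dy dt`. -/
noncomputable def hdiv (X : E3 → E3) (q : E3) : ℝ := ht q ^ 3 * dv (fun y => (ht y ^ 3)⁻¹ • X y) q

/-- Hyperbolic gradient: `t²` times the Euclidean gradient. -/
noncomputable def hgrad (F : E3 → ℝ) (q : E3) : E3 := ht q ^ 2 • grad F q

/-- Hyperbolic length of a tangent vector `v` at the point `q`: `|v| / t`. -/
noncomputable def hnorm (q v : E3) : ℝ := ‖v‖ / ht q

/-- Mean curvature (trace of the second fundamental form) at `q` of the level set of `F` through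
`q`: the hyperbolic divergence of the unit normal field `grad F / |grad F|`. -/
noncomputable def meanCurvature (F : E3 → ℝ) (q : E3) : ℝ :=
  hdiv (fun y => (hnorm y (hgrad F y))⁻¹ • hgrad F y) q

/-- In the open subset `W` of upper half-space, the set `S` is the zero set of the `C²` function
`F` with nowhere vanishing gradient, and the mean curvature of this zero set is zero. -/
def IsLevel (S W : Set E3) (F : E3 → ℝ) : Prop :=
  IsOpen W ∧ ContDiffOn ℝ 2 F W ∧
    ∀ q ∈ W, Up q ∧ grad F q ≠ 0 ∧ (q ∈ S ↔ F q = 0) ∧ (q ∈ S → meanCurvature F q = 0)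

/-- `S` is a properly embedded minimal surface (of class `C²`, without boundary) in `M = H³/Γ`:
a nonempty closed subset whose preimage is, in a neighbourhood of each of its points, a regular
zero set of mean curvature zero. -/
def IsMinimalSurface (Γ : Grp) (S : Set (Mfd Γ)) : Prop :=
  S.Nonempty ∧ IsClosed S ∧ ∀ p ∈ lift Γ S, ∃ W F, p ∈ W ∧ IsLevel (lift Γ S) W F

/-- Two-dimensional hyperbolic area in upper half-space: the integral of `1 / t²` with respect to
Euclidean area (two-dimensional Hausdorff measure of Euclidean space, normalised to be Lebesgue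
measure on planes). -/
noncomputable def harea (A : Set E3) : ℝ≥0∞ :=
  ∫⁻ p in A, ENNReal.ofReal (ht p ^ 2)⁻¹ ∂(μHE[2] : Measure E3)

/-- The area of `S ⊆ M = H³/Γ`: the infimum, over all Borel sets `D` containing a point of every
orbit of `Γ`, of the area of the part in `D` of the preimage of `S` (the infimum is attained when
`D` is a fundamental domain). -/
noncomputable def area (Γ : Grp) (S : Set (Mfd Γ)) : ℝ≥0∞ :=
  ⨅ (D : Set E3) (_ : MeasurableSet D) (_ : ∀ q : H3, ∃ γ ∈ Γ, (γ q).1 ∈ D), harea (D ∩ lift Γ S)

end Pool.Agent.Helper82.Min
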