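import Pool.Agent.Helper82.Min.Defs

namespace Pool.Agent.Helper82.Min

/-- The totally geodesic plane `y = 0` of hyperbolic space. -/
def plane : Set E3 := {q | Up q ∧ q 1 = 0}

end Pool.Agent.Helper82.Min
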